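import Mathlib

/-!
Definitions for MP_a804c6_nt over a field `𝕜` (of characteristic zero) and for every base `p`, and the two
general lemmas on linked exponents (copied from the library of earlier runs; helper67).
-/

set_option autoImplicit false

universe u v

namespace Pool.Agent.helper67PW.Cluster

open Filter Polynomial Topology

variable {𝕜 : Type u} [Field 𝕜]


/-- The set `S(f; g_1, …, g_s; p)` of the problem, for a polynomial and constants over `𝕜`. -/
def solSet (p : ℕ) (f : 𝕜[X]) {s : ℕ} (g : Fin s → 𝕜) : Set ℕ :=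
  {n | ∃ k : Fin s → ℕ, f.eval (n : 𝕜) = ∑ j, g j * (p : 𝕜) ^ (k j)}

/-- The analogue of `solSet` for a system `f = (f_i)` of polynomials over `𝕜` (`i` in any index type) and
constants `g_j = (g_j i)_i`: the `n ∈ ℕ` such that for suitable exponents `k_j`, the same for all `i`,
`f_i (n) = ∑ j, g_j i * p ^ k_j` for every `i`. -/
def sysSet (p : ℕ) {ι : Type v} (f : ι → 𝕜[X]) {s : ℕ} (g : Fin s → ι → 𝕜) : Set ℕ :=
  {n | ∃ k : Fin s → ℕ, ∀ i, (f i).eval (n : 𝕜) = ∑ j, g j i * (p : 𝕜) ^ (k j)}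

/-- Arithmetic progressions `{a + b n : n ∈ ℕ}` with `a, b ∈ ℕ`, as sets of rationals. -/
def IsAP (A : Set ℚ) : Prop :=
  ∃ a b : ℕ, A = {x | ∃ n : ℕ, x = (a : ℚ) + b * n}

/-- `p`-sum sets `{∑ c_j p ^ (k_j n_j) : n_1, …, n_m ∈ ℕ}` with `m ≥ 1`, `c_j ∈ ℚ`, `k_j ∈ ℕ`. -/
def IsPSumSet (p : ℕ) (A : Set ℚ) : Prop :=
  ∃ m : ℕ, 1 ≤ m ∧ ∃ (c : Fin m → ℚ) (k : Fin m → ℕ),
    A = {x | ∃ n : Fin m → ℕ, x = ∑ j, c j * (p : ℚ) ^ (k j * n j)}

/-- `S` is the set of all nonnegative integers contained in some finite union of arithmetic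
progressions and `p`-sum sets (so it holds in particular when `S` is such a union). -/
def IsTraceOfFiniteUnion (p : ℕ) (S : Set ℕ) : Prop :=
  ∃ F : Set (Set ℚ), F.Finite ∧ (∀ A ∈ F, IsAP A ∨ IsPSumSet p A) ∧
    ∀ n : ℕ, n ∈ S ↔ ∃ A ∈ F, (n : ℚ) ∈ A


theorem const_or_tendsto_zero (b : ℝ) (hb : 1 < b) (U : Ultrafilter ℕ) (r : ℕ → ℤ) (G M : ℝ)
    (hG : 0 < G) (hM : ∀ᶠ a in (U : Filter ℕ), b ^ (r a) ≤ M) :
    (∃ z : ℤ, ∀ᶠ a in (U : Filter ℕ), r a = z) ∨
      Tendsto (fun a => G * b ^ (r a)) (U : Filter ℕ) (𝓝 0) := by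
  by_cases h : ∃ z : ℤ, ∀ᶠ a in (U : Filter ℕ), r a = z
  · exact Or.inl h
  · right
    push Not at h
    have h' : ∀ z : ℤ, ∀ᶠ a in (U : Filter ℕ), r a ≠ z := h
    have hb0 : (0 : ℝ) < b := by linarith
    obtain ⟨Z, hZ⟩ : ∃ Z : ℕ, M < b ^ Z := pow_unbounded_of_one_lt M hb
    rw [Metric.tendsto_nhds]
    intro ε hε
    obtain ⟨z0, hz0⟩ : ∃ z0 : ℕ, G / ε < b ^ z0 := pow_unbounded_of_one_lt _ hb
    have hfin : ∀ᶠ a in (U : Filter ℕ), ∀ z ∈ Finset.Icc (-(z0 : ℤ)) (Z : ℤ), r a ≠ z := by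
      rw [Filter.eventually_all_finset]
      intro z _
      exact h' z
    filter_upwards [hM, hfin] with a ha1 ha2
    have hlt : r a < Z := by
      by_contra hcon
      push Not at hcon
      have : b ^ ((Z : ℕ) : ℤ) ≤ b ^ (r a) := zpow_le_zpow_right₀ hb.le hcon
      rw [zpow_natCast] at this
      linarith
    have hlt2 : r a < -(z0 : ℤ) := by
      by_contra hcon
      push Not at hcon
      exact ha2 (r a) (Finset.mem_Icc.2 ⟨hcon, hlt.le⟩) rfl
    have hpos : 0 < b ^ (r a) := zpow_pos hb0 _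
    rw [Real.dist_eq, sub_zero, abs_of_pos (mul_pos hG hpos)]
    have h3 : b ^ (r a) ≤ b ^ (-(z0 : ℤ)) := zpow_le_zpow_right₀ hb.le hlt2.le
    have h4 : b ^ (-(z0 : ℤ)) = (b ^ z0)⁻¹ := by rw [zpow_neg, zpow_natCast]
    have h5 : 0 < b ^ z0 := pow_pos hb0 _
    calc G * b ^ (r a) ≤ G * (b ^ z0)⁻¹ := by
          rw [← h4]; exact mul_le_mul_of_nonneg_left h3 hG.le
      _ < ε := by
          rw [← div_eq_mul_inv, div_lt_iff₀ h5]
          rw [div_lt_iff₀ hε] at hz0
          linarith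

theorem cluster {ι : Type*} [DecidableEq ι] (b : ℝ) (hb : 1 < b) (g : ι → ℝ) (hg : ∀ j, 0 < g j)
    (U : Ultrafilter ℕ) (hU : (U : Filter ℕ) ≤ atTop) (k : ℕ → ι → ℤ) :
    ∀ (N : ℕ) (P : ℝ[X]) (J : Finset ι), P.support.card = N →
      (∀ᶠ a in (U : Filter ℕ), P.eval (b ^ a) = ∑ j ∈ J, g j * b ^ (k a j)) →
      (∀ d, 0 ≤ P.coeff d) ∧ P.support.card ≤ J.card := by
  intro N
  induction N with
  | zero =>
    intro P J hP _
    have : P = 0 := by
      rw [Finset.card_eq_zero] at hP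
      exact Polynomial.support_eq_empty.1 hP
    subst this
    simp
  | succ N ih =>
    intro P J hP hev
    have hb0 : (0 : ℝ) < b := by linarith
    have hP0 : P ≠ 0 := by
      rintro rfl
      simp at hP
    set D := P.natDegree with hD
    set c := P.leadingCoeff with hc
    have hc0 : c ≠ 0 := by rw [hc]; exact leadingCoeff_ne_zero.2 hP0
    -- limit of normalised values
    have hlim : Tendsto (fun a : ℕ => P.eval (b ^ a) / (b ^ a) ^ D) (U : Filter ℕ) (𝓝 c) := by
      have h1 := Polynomial.div_tendsto_atTop_leadingCoeff_div_of_degree_eq P (X ^ D : ℝ[X])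
        (by rw [degree_X_pow, Polynomial.degree_eq_natDegree hP0])
      have h2 : Tendsto (fun a : ℕ => b ^ a) (U : Filter ℕ) atTop :=
        (tendsto_pow_atTop_atTop_of_one_lt hb).mono_left hU
      have h3 := h1.comp h2
      simp only [leadingCoeff_X_pow, div_one, eval_pow, eval_X] at h3
      exact h3
    have hsum : ∀ᶠ a in (U : Filter ℕ), P.eval (b ^ a) / (b ^ a) ^ D
        = ∑ j ∈ J, g j * b ^ (k a j - (a * D : ℕ)) := by
      filter_upwards [hev] with a ha
      rw [ha, Finset.sum_div]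
      refine Finset.sum_congr rfl fun j _ => ?_
      rw [zpow_sub₀ hb0.ne', zpow_natCast, pow_mul, mul_div_assoc]
    have hlim2 : Tendsto (fun a : ℕ => ∑ j ∈ J, g j * b ^ (k a j - (a * D : ℕ)))
        (U : Filter ℕ) (𝓝 c) := hlim.congr' hsum
    have hle : ∀ᶠ a in (U : Filter ℕ), ∑ j ∈ J, g j * b ^ (k a j - (a * D : ℕ)) < c + 1 :=
      hlim2.eventually_lt_const (by linarith)
    have hdich : ∀ j ∈ J, (∃ z : ℤ, ∀ᶠ a in (U : Filter ℕ), k a j - (a * D : ℕ) = z) ∨
        Tendsto (fun a => g j * b ^ (k a j - (a * D : ℕ))) (U : Filter ℕ) (𝓝 0) := by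
      intro j hj
      refine const_or_tendsto_zero b hb U _ (g j) ((c + 1) / g j) (hg j) ?_
      filter_upwards [hle] with a ha
      rw [le_div_iff₀ (hg j)]
      have : g j * b ^ (k a j - (a * D : ℕ)) ≤ ∑ j ∈ J, g j * b ^ (k a j - (a * D : ℕ)) :=
        Finset.single_le_sum (f := fun j => g j * b ^ (k a j - (a * D : ℕ)))
          (fun i _ => (mul_pos (hg i) (zpow_pos hb0 _)).le) hj
      linarith
    classical
    set J' := J.filter (fun j => ∃ z : ℤ, ∀ᶠ a in (U : Filter ℕ), k a j - (a * D : ℕ) = z) with hJ'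
    set J'' := J.filter (fun j => ¬ ∃ z : ℤ, ∀ᶠ a in (U : Filter ℕ), k a j - (a * D : ℕ) = z)
      with hJ''
    have hz : ∀ j ∈ J', ∃ z : ℤ, ∀ᶠ a in (U : Filter ℕ), k a j - (a * D : ℕ) = z := by
      intro j hj
      exact (Finset.mem_filter.1 hj).2
    choose! z hz using hz
    have hzall : ∀ᶠ a in (U : Filter ℕ), ∀ j ∈ J', k a j - (a * D : ℕ) = z j := by
      rw [Filter.eventually_all_finset]
      exact hz
    have hsplit : ∀ a : ℕ, ∑ j ∈ J, g j * b ^ (k a j - (a * D : ℕ))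
        = ∑ j ∈ J', g j * b ^ (k a j - (a * D : ℕ)) + ∑ j ∈ J'', g j * b ^ (k a j - (a * D : ℕ)) := by
      intro a
      rw [hJ', hJ'', Finset.sum_filter_add_sum_filter_not]
    have hlim3 : Tendsto (fun a : ℕ => ∑ j ∈ J'', g j * b ^ (k a j - (a * D : ℕ)))
        (U : Filter ℕ) (𝓝 0) := by
      have : (0 : ℝ) = ∑ j ∈ J'', (0 : ℝ) := by simp
      rw [this]
      refine tendsto_finsetSum _ fun j hj => ?_
      rw [hJ'', Finset.mem_filter] at hj
      rcases hdich j hj.1 with h | h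
      · exact absurd h hj.2
      · exact h
    have hlim4 : Tendsto (fun a : ℕ => ∑ j ∈ J', g j * b ^ (k a j - (a * D : ℕ)))
        (U : Filter ℕ) (𝓝 (∑ j ∈ J', g j * b ^ (z j))) := by
      refine tendsto_const_nhds.congr' ?_
      filter_upwards [hzall] with a ha
      refine Finset.sum_congr rfl fun j hj => ?_
      rw [ha j hj]
    have hceq : c = ∑ j ∈ J', g j * b ^ (z j) := by
      have h5 := hlim4.add hlim3
      rw [add_zero] at h5
      have h6 : Tendsto (fun a : ℕ => ∑ j ∈ J, g j * b ^ (k a j - (a * D : ℕ)))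
        (U : Filter ℕ) (𝓝 (∑ j ∈ J', g j * b ^ (z j))) := by
        refine h5.congr fun a => ?_
        rw [hsplit]
      exact tendsto_nhds_unique hlim2 h6
    have hcnn : 0 ≤ c := by
      rw [hceq]
      exact Finset.sum_nonneg fun j _ => (mul_pos (hg j) (zpow_pos hb0 _)).le
    have hJ'ne : 0 < J'.card := by
      rw [Finset.card_pos]
      by_contra hne
      rw [Finset.not_nonempty_iff_eq_empty] at hne
      rw [hne] at hceq
      simp at hceq
      exact hc0 hceq
    have hcard : J'.card + J''.card = J.card := by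
      rw [hJ', hJ'']
      exact Finset.card_filter_add_card_filter_not _
    have hev' : ∀ᶠ a in (U : Filter ℕ), P.eraseLead.eval (b ^ a) = ∑ j ∈ J'', g j * b ^ (k a j) := by
      filter_upwards [hev, hzall] with a ha hza
      have h7 : P.eval (b ^ a) = P.eraseLead.eval (b ^ a) + c * (b ^ a) ^ D := by
        conv_lhs => rw [← P.eraseLead_add_monomial_natDegree_leadingCoeff]
        rw [eval_add, eval_monomial]
      have h8 : ∑ j ∈ J, g j * b ^ (k a j) = ∑ j ∈ J', g j * b ^ (k a j) + ∑ j ∈ J'', g j * b ^ (k a j) := by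
        rw [hJ', hJ'', Finset.sum_filter_add_sum_filter_not]
      have h9 : ∑ j ∈ J', g j * b ^ (k a j) = c * (b ^ a) ^ D := by
        rw [hceq, Finset.sum_mul]
        refine Finset.sum_congr rfl fun j hj => ?_
        have : k a j = z j + (a * D : ℕ) := by
          have := hza j hj
          omega
        rw [this, zpow_add₀ hb0.ne', zpow_natCast, pow_mul, mul_assoc]
      linarith
    have hcard2 : P.eraseLead.support.card = N := by
      have := Polynomial.eraseLead_support_card_lt hP0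
      rw [Polynomial.card_support_eraseLead]
      omega
    obtain ⟨h10, h11⟩ := ih P.eraseLead J'' hcard2 hev'
    constructor
    · intro d
      by_cases hd : d = D
      · rw [hd]; exact hcnn
      · have := h10 d
        rwa [Polynomial.eraseLead_coeff_of_ne _ hd] at this
    · omega

theorem exists_period (p d : ℕ) (hp : 2 ≤ p) (hd : 0 < d) :
    ∃ K L : ℕ, 0 < L ∧ d ∣ p ^ K * (p ^ L - 1) := by
  have : NeZero d := ⟨hd.ne'⟩
  obtain ⟨x, y, hxy, hf⟩ := Finite.exists_ne_map_eq_of_infinite (fun n : ℕ => ((p : ZMod d)) ^ n)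
  wlog hlt : x < y generalizing x y
  · exact this y x hxy.symm hf.symm (by omega)
  refine ⟨x, y - x, by omega, ?_⟩
  have h1 : ((p ^ x : ℕ) : ZMod d) = ((p ^ y : ℕ) : ZMod d) := by
    push_cast
    exact hf
  rw [ZMod.natCast_eq_natCast_iff] at h1
  have h2 : d ∣ p ^ y - p ^ x := (Nat.modEq_iff_dvd' (Nat.pow_le_pow_right (by omega) hlt.le)).1 h1
  have h3 : p ^ x * (p ^ (y - x) - 1) = p ^ y - p ^ x := by
    rw [Nat.mul_sub, mul_one, ← pow_add]
    congr 2
    omega
  rw [h3]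
  exact h2

end Pool.Agent.helper67PW.Cluster
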