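import Mathlib
import Pool.Agent.helper67PW.Cluster

/-!
# Polynomial values as sums of scaled prime powers: statements of the lemmas for polynomials of degree at most one
-/

set_option autoImplicit false

universe u

open Polynomial Finset

namespace Pool.Agent.helper67PW

open Pool.Agent.helper67PW.Cluster

/-- A linked family of exponent vectors: every coordinate is a constant `e j` or `e j + n (π j)` with free
parameters `n i`. -/
def Linked {ι : Type} (K : Set (ι → ℕ)) : Prop :=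
  ∃ (m : ℕ) (π : ι → Fin m) (δ e : ι → ℕ), (∀ j, δ j ≤ 1) ∧
    K = {k | ∃ n : Fin m → ℕ, ∀ j, k j = e j + δ j * n (π j)}

/-- Pigeonhole: a large exponent lies above a gap. -/
def S_PIG : Prop :=
  ∀ (ι : Type) [Fintype ι] [DecidableEq ι] (G : ℕ) (k : ι → ℕ) (j₀ : ι),
    Fintype.card ι * (G + 1) ≤ k j₀ →
    ∃ T : Finset ι, j₀ ∈ T ∧ (∀ j ∈ T, ∀ i, i ∉ T → k i + G < k j) ∧ (∀ j ∈ T, G < k j)

/-- The product of linked families. -/
def S_PROD : Prop :=
  ∀ (ι : Type) (P : ι → Prop) [DecidablePred P] (K₁ : Set ({j // P j} → ℕ)) (K₂ : Set ({j // ¬ P j} → ℕ)),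
    Linked K₁ → Linked K₂ →
    Linked {k : ι → ℕ | (fun j : {j // P j} => k j) ∈ K₁ ∧ (fun j : {j // ¬ P j} => k j) ∈ K₂}

/-- Linear equations in powers of `p`: the solutions are a finite union of linked families. -/
def S_UNIT : Prop :=
  ∀ (p : ℕ), 2 ≤ p → ∀ (r : ℕ) (ι : Type) [Fintype ι] [DecidableEq ι] (v : ι → Fin r → ℤ) (w : Fin r → ℤ),
    ∃ F : Set (Set (ι → ℕ)), F.Finite ∧ (∀ K ∈ F, Linked K) ∧
      {k : ι → ℕ | ∀ i, ∑ j, (p : ℤ) ^ (k j) * v j i = w i} = ⋃₀ F

end Pool.Agent.helper67PW
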