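import Mathlib
import Pool.Agent.helper67PW.Cluster

/-!
# Polynomial values as sums of scaled prime powers: real polynomials of degree at least two
-/

set_option autoImplicit false

open Polynomial Finset Filter Topology

namespace Pool.Agent.helper67PW.Pos

open Pool.Agent.helper67PW.Cluster

/-- nonnegative coefficients -/
def Nn (P : ℝ[X]) : Prop := ∀ e, 0 ≤ P.coeff e

lemma Nn.add {P Q : ℝ[X]} (hP : Nn P) (hQ : Nn Q) : Nn (P + Q) := fun e => by
  rw [coeff_add]; exact add_nonneg (hP e) (hQ e)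

lemma Nn.mul {P Q : ℝ[X]} (hP : Nn P) (hQ : Nn Q) : Nn (P * Q) := fun e => by
  rw [coeff_mul]; exact Finset.sum_nonneg fun x _ => mul_nonneg (hP _) (hQ _)

lemma nn_one : Nn 1 := fun e => by
  rw [coeff_one]; split_ifs <;> norm_num

lemma Nn.pow {P : ℝ[X]} (hP : Nn P) (i : ℕ) : Nn (P ^ i) := by
  induction i with
  | zero => rw [pow_zero]; exact nn_one
  | succ i ih => rw [pow_succ]; exact ih.mul hP

lemma nn_C {r : ℝ} (hr : 0 ≤ r) : Nn (C r) := fun e => by
  rw [coeff_C]; split_ifs <;> [exact hr; exact le_rfl]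

lemma nn_X_pow (i : ℕ) : Nn (X ^ i) := fun e => by
  rw [coeff_X_pow]; split_ifs <;> norm_num

lemma nn_X : Nn X := fun e => by
  rw [coeff_X]; split_ifs <;> norm_num

lemma pos_mul {P Q : ℝ[X]} (hP : Nn P) (hQ : Nn Q) {m n : ℕ} (hm : 0 < P.coeff m)
    (hn : 0 < Q.coeff n) : 0 < (P * Q).coeff (m + n) := by
  rw [coeff_mul]
  have h1 : P.coeff m * Q.coeff n ≤ ∑ x ∈ antidiagonal (m + n), P.coeff x.1 * Q.coeff x.2 :=
    Finset.single_le_sum (f := fun x : ℕ × ℕ => P.coeff x.1 * Q.coeff x.2)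
      (fun x _ => mul_nonneg (hP _) (hQ _)) (mem_antidiagonal.2 (rfl : (m, n).1 + (m, n).2 = m + n))
  exact lt_of_lt_of_le (mul_pos hm hn) h1

lemma pos_pow {P : ℝ[X]} (hP : Nn P) {m : ℕ} (hm : 0 < P.coeff m) (i : ℕ) :
    0 < (P ^ i).coeff (i * m) := by
  induction i with
  | zero => simp
  | succ i ih =>
    rw [pow_succ, Nat.succ_mul]
    exact pos_mul (hP.pow i) hP ih hm

lemma pos_pow2 {P : ℝ[X]} (hP : Nn P) {a b : ℕ} (ha : 0 < P.coeff a) (hb : 0 < P.coeff b)
    (l j : ℕ) : 0 < (P ^ (l + j)).coeff (l * a + j * b) := by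
  rw [pow_add]
  exact pos_mul (hP.pow l) (hP.pow j) (pos_pow hP ha l) (pos_pow hP hb j)

lemma comp_coeff (H P : ℝ[X]) (e : ℕ) :
    (H.comp P).coeff e = ∑ i ∈ range (H.natDegree + 1), H.coeff i * (P ^ i).coeff e := by
  rw [comp, eval₂_eq_sum_range, finset_sum_coeff]
  refine Finset.sum_congr rfl fun i _ => ?_
  rw [coeff_C_mul]

lemma pos_comp {H P : ℝ[X]} (hH : Nn H) (hP : Nn P) {i e : ℕ} (hi : 0 < H.coeff i)
    (he : 0 < (P ^ i).coeff e) : 0 < (H.comp P).coeff e := by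
  rw [comp_coeff]
  have hle : i ≤ H.natDegree := le_natDegree_of_ne_zero hi.ne'
  have h1 : H.coeff i * (P ^ i).coeff e ≤
      ∑ i ∈ range (H.natDegree + 1), H.coeff i * (P ^ i).coeff e :=
    Finset.single_le_sum (f := fun i => H.coeff i * (P ^ i).coeff e)
      (fun x _ => mul_nonneg (hH _) (hP.pow _ _)) (mem_range.2 (by omega))
  exact lt_of_lt_of_le (mul_pos hi he) h1

/-- `n` is a solution of `F n = ∑ G_j p ^ (k_j)`. -/
def SolF (F : ℝ[X]) {s : ℕ} (G : Fin s → ℝ) (p n : ℕ) : Prop :=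
  ∃ k : Fin s → ℕ, F.eval (n : ℝ) = ∑ j, G j * (p : ℝ) ^ (k j)

theorem cluster_solF (F : ℝ[X]) {s : ℕ} (G : Fin s → ℝ) (hG : ∀ j, 0 < G j) (p : ℕ) (hp : 2 ≤ p)
    (U : Ultrafilter ℕ) (hU : (U : Filter ℕ) ≤ atTop) (P : ℝ[X])
    (h : ∀ᶠ a in (U : Filter ℕ), ∃ n : ℕ, SolF F G p n ∧ P.eval ((p : ℝ) ^ a) = F.eval (n : ℝ)) :
    (∀ d, 0 ≤ P.coeff d) ∧ P.support.card ≤ s := by
  have h2 : ∀ᶠ a in (U : Filter ℕ), ∃ k : Fin s → ℤ,
      P.eval ((p : ℝ) ^ a) = ∑ j, G j * (p : ℝ) ^ (k j) := by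
    filter_upwards [h] with a ha
    obtain ⟨t, ⟨k, hk⟩, ht⟩ := ha
    refine ⟨fun j => (k j : ℤ), ?_⟩
    rw [ht, hk]
    simp
  have h3 : ∃ k : ℕ → Fin s → ℤ, ∀ᶠ a in (U : Filter ℕ),
      P.eval ((p : ℝ) ^ a) = ∑ j, G j * (p : ℝ) ^ (k a j) := by
    classical
    refine ⟨fun a => if h : ∃ k : Fin s → ℤ,
      P.eval ((p : ℝ) ^ a) = ∑ j, G j * (p : ℝ) ^ (k j) then h.choose else 0, ?_⟩
    filter_upwards [h2] with a ha
    rw [dif_pos ha]
    exact ha.choose_spec
  obtain ⟨k, hk⟩ := h3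
  have hp1 : (1 : ℝ) < p := by exact_mod_cast (by omega : 1 < p)
  have := cluster (p : ℝ) hp1 G hG U hU k P.support.card P Finset.univ rfl hk
  simpa using this

/-- the composition with a polynomial whose constant term has been split off -/
lemma comp_taylor (F R : ℝ[X]) (t : ℝ) : F.comp (R + C t) = (taylor t F).comp R := by
  rw [taylor_apply, comp_assoc, add_comp, X_comp, C_comp]

/-- nonnegativity of the taylor polynomial -/
lemma nn_taylor {F : ℝ[X]} {t : ℝ} (h : ∀ i ≤ F.natDegree, 0 < (taylor t F).coeff i) :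
    Nn (taylor t F) := by
  intro e
  by_cases he : e ≤ F.natDegree
  · exact (h e he).le
  · rw [coeff_eq_zero_of_natDegree_lt]
    rw [natDegree_taylor]
    omega

theorem ap_case (F : ℝ[X]) (hd : 2 ≤ F.natDegree) (t : ℕ)
    (hpos : ∀ i ≤ F.natDegree, 0 < (taylor (t : ℝ) F).coeff i)
    {s : ℕ} (hs : s ≤ 2 * F.natDegree + 1) (G : Fin s → ℝ) (hG : ∀ j, 0 < G j)
    (p : ℕ) (hp : 2 ≤ p) (u v : ℕ) (hv : 0 < v)
    (h : ∀ n : ℕ, SolF F G p (u + v * n)) : False := by
  have hv' : (0 : ℝ) < v := by exact_mod_cast hv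
  -- enlarge `u`
  have h' : ∀ n : ℕ, SolF F G p (u + v * t + v * n) := by
    intro n
    have := h (t + n)
    rwa [Nat.mul_add, ← add_assoc] at this
  set u' : ℕ := u + v * t with hu'
  have htu : t ≤ u' := by
    have : t ≤ v * t := Nat.le_mul_of_pos_left t hv
    omega
  set S : ℝ[X] := ∑ i ∈ range (2 * F.natDegree + 2), X ^ (i + 1) with hS
  set P : ℝ[X] := C ((u' : ℝ) - t) + C (v : ℝ) * S with hP
  have hSc : ∀ e, S.coeff e = if 1 ≤ e ∧ e < 2 * F.natDegree + 3 then 1 else 0 := by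
    intro e
    rw [hS, finset_sum_coeff]
    simp only [coeff_X_pow]
    rcases Nat.eq_zero_or_pos e with h0 | h0
    · subst h0
      simp
    · obtain ⟨e', rfl⟩ : ∃ e', e = e' + 1 := ⟨e - 1, by omega⟩
      simp only [Nat.add_right_cancel_iff]
      rw [Finset.sum_ite_eq (range (2 * F.natDegree + 2)) e' (fun _ => (1 : ℝ))]
      simp only [mem_range]
      congr 1
      simp only [eq_iff_iff]
      omega
  have hSn : Nn S := fun e => by rw [hSc]; split_ifs <;> norm_num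
  have hPn : Nn P := by
    refine (nn_C ?_).add ((nn_C hv'.le).mul hSn)
    have : (t : ℝ) ≤ u' := by exact_mod_cast htu
    linarith
  have hPp : ∀ e, 1 ≤ e → e < 2 * F.natDegree + 3 → 0 < P.coeff e := by
    intro e h1 h2
    rw [hP, coeff_add, coeff_C_mul, hSc, if_pos ⟨h1, h2⟩, coeff_C, if_neg (by omega)]
    simpa using hv
  have h1 := cluster_solF F G hG p hp (hyperfilter ℕ) (by
      rw [← Nat.cofinite_eq_atTop]; exact hyperfilter_le_cofinite)
    (F.comp (P + C (t : ℝ)))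
    (Eventually.of_forall fun a => ⟨u' + v * ∑ i ∈ range (2 * F.natDegree + 2), (p ^ a) ^ (i + 1),
      h' _, by
      rw [eval_comp, hP, hS]
      simp only [eval_add, eval_C, eval_mul, eval_finset_sum, eval_pow, eval_X]
      push_cast
      congr 1
      ring⟩)
  obtain ⟨_, hcard⟩ := h1
  rw [comp_taylor] at hcard
  have hsub : (Finset.Icc 1 (2 * F.natDegree + 2)) ⊆ ((taylor (t : ℝ) F).comp P).support := by
    intro e he
    rw [Finset.mem_Icc] at he
    rw [mem_support_iff]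
    refine (pos_comp (nn_taylor hpos) hPn (hpos 1 (by omega)) ?_).ne'
    rw [pow_one]
    exact hPp e he.1 (by omega)
  have := Finset.card_le_card hsub
  rw [Nat.card_Icc] at this
  omega

/-- the coefficient of index `d - 1` of `F (B + E Y)` -/
lemma coeff_sub_one (F : ℝ[X]) (hF : F.Monic) (hd : 1 ≤ F.natDegree) (B E : ℝ) (M : ℕ) (hM : 0 < M) :
    (F.comp (C B + C E * X ^ M)).coeff ((F.natDegree - 1) * M) =
      (F.coeff (F.natDegree - 1) + F.natDegree * B) * E ^ (F.natDegree - 1) := by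
  have h1 : F.comp (C B + C E * X ^ M) = expand ℝ M ((taylor B F).comp (C E * X)) := by
    rw [expand_eq_comp_X_pow, taylor_apply, comp_assoc, comp_assoc]
    congr 1
    simp only [add_comp, mul_comp, X_comp, C_comp]
    ring
  rw [h1, coeff_expand_mul hM, comp_C_mul_X_coeff, taylor_coeff]
  congr 1
  have h2 : (hasseDeriv (F.natDegree - 1) F).natDegree < 2 := by
    have := natDegree_hasseDeriv_le F (F.natDegree - 1)
    omega
  rw [eval_eq_sum_range' h2, Finset.sum_range_succ, Finset.sum_range_one, hasseDeriv_coeff,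
    hasseDeriv_coeff]
  have h3 : 1 + (F.natDegree - 1) = F.natDegree := by omega
  rw [h3, zero_add, Nat.choose_self, hF.coeff_natDegree]
  have h4 : F.natDegree.choose (F.natDegree - 1) = F.natDegree := by
    rw [Nat.choose_symm (by omega : 1 ≤ F.natDegree)]
    exact Nat.choose_one_right _
  rw [h4]
  simp

end Pool.Agent.helper67PW.Pos
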