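import Mathlib
import Pool.Agent.helper67PW.Psum

/-!
# Polynomials of degree at least two never have the finite union property
-/

set_option autoImplicit false

universe u v

open Polynomial Finset Filter Topology

namespace Pool.Agent.helper67PW.Nonlin

open Pool.Agent.helper67PW.Cluster Pool.Agent.helper67PW.Pos Pool.Agent.helper67PW.Psum

variable {𝕜 : Type u} [Field 𝕜] [CharZero 𝕜]

/-- the real polynomial obtained by applying a rational linear functional to the coefficients -/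
noncomputable def Lp (l : 𝕜 →ₗ[ℚ] ℚ) (h : 𝕜[X]) : ℝ[X] :=
  ∑ i ∈ range (h.natDegree + 1), monomial i ((l (h.coeff i) : ℚ) : ℝ)

lemma Lp_coeff (l : 𝕜 →ₗ[ℚ] ℚ) (h : 𝕜[X]) (j : ℕ) :
    (Lp l h).coeff j = ((l (h.coeff j) : ℚ) : ℝ) := by
  rw [Lp, finsetSum_coeff]
  simp only [coeff_monomial]
  rw [Finset.sum_ite_eq' (range (h.natDegree + 1)) j]
  split_ifs with hj
  · rfl
  · rw [mem_range] at hj
    rw [coeff_eq_zero_of_natDegree_lt (by omega), map_zero, Rat.cast_zero]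

lemma l_mul (l : 𝕜 →ₗ[ℚ] ℚ) (x : 𝕜) (q : ℚ) :
    l (x * (q : 𝕜)) = l x * q := by
  have : x * (q : 𝕜) = q • x := by
    rw [Algebra.smul_def, mul_comm]
    simp
  rw [this, map_smul, smul_eq_mul, mul_comm]

lemma l_mul_nat (l : 𝕜 →ₗ[ℚ] ℚ) (x : 𝕜) (q i : ℕ) :
    l (x * (q : 𝕜) ^ i) = l x * (q : ℚ) ^ i := by
  have := l_mul l x ((q : ℚ) ^ i)
  push_cast at this
  exact this

/-- positivity of the Taylor coefficients at large arguments -/
lemma exists_t (F : ℝ[X]) (hF : F.Monic) :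
    ∃ t₀ : ℕ, ∀ t : ℕ, t₀ ≤ t → ∀ i ≤ F.natDegree, 0 < (taylor (t : ℝ) F).coeff i := by
  have h1 : ∀ i ∈ range (F.natDegree + 1), ∀ᶠ x : ℝ in atTop, 0 < (taylor x F).coeff i := by
    intro i hi
    rw [mem_range] at hi
    simp only [taylor_coeff]
    have hc : (hasseDeriv i F).coeff (F.natDegree - i) = (F.natDegree.choose i : ℝ) := by
      rw [hasseDeriv_coeff]
      have : F.natDegree - i + i = F.natDegree := by omega
      rw [this, hF.coeff_natDegree, mul_one]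
    have hpos : (0 : ℝ) < (F.natDegree.choose i : ℝ) := by
      exact_mod_cast Nat.choose_pos (by omega)
    have hle := natDegree_hasseDeriv_le F i
    have hnd : (hasseDeriv i F).natDegree = F.natDegree - i := by
      refine le_antisymm hle (le_natDegree_of_ne_zero ?_)
      rw [hc]
      exact hpos.ne'
    have hlead : (hasseDeriv i F).leadingCoeff = (F.natDegree.choose i : ℝ) := by
      rw [leadingCoeff, hnd, hc]
    rcases Nat.eq_zero_or_pos (F.natDegree - i) with h0 | h0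
    · have hC : hasseDeriv i F = C ((hasseDeriv i F).coeff 0) :=
        eq_C_of_natDegree_eq_zero (by rw [hnd, h0])
      rw [hC]
      simp only [eval_C]
      rw [h0] at hc
      rw [hc]
      exact Eventually.of_forall fun _ => hpos
    · have hdeg : 0 < (hasseDeriv i F).degree := by
        rw [← natDegree_pos_iff_degree_pos, hnd]
        exact h0
      exact (tendsto_atTop_of_leadingCoeff_nonneg _ hdeg (by rw [hlead]; exact hpos.le)).eventually_gt_atTop 0
  have h2 : ∀ᶠ x : ℝ in atTop, ∀ i ∈ range (F.natDegree + 1), 0 < (taylor x F).coeff i :=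
    (Filter.eventually_all_finset _).2 h1
  obtain ⟨t₀, ht₀⟩ := eventually_atTop.1 (tendsto_natCast_atTop_atTop.eventually h2)
  exact ⟨t₀, fun t ht i hi => ht₀ t ht i (mem_range.2 (by omega))⟩

theorem main_sys {ι : Type v} (fs : ι → 𝕜[X]) (i₀ : ι) (hd : 2 ≤ (fs i₀).natDegree)
    (hle : ∀ i, (fs i).natDegree ≤ (fs i₀).natDegree) :
    ∃ t₀ : ℕ, ∀ t : ℕ, t₀ ≤ t →
      (∀ j : Fin (2 * (fs i₀).natDegree + 1),
        ((fs i₀).comp (X ^ 2 + X + C (t : 𝕜))).coeff j ≠ 0) ∧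
      ∀ p : ℕ, 2 ≤ p → ¬ IsTraceOfFiniteUnion p (sysSet p fs
        (fun (j : Fin (2 * (fs i₀).natDegree + 1)) (i : ι) =>
          ((fs i).comp (X ^ 2 + X + C (t : 𝕜))).coeff j)) := by
  obtain ⟨f, hfdef⟩ : ∃ f : 𝕜[X], f = fs i₀ := ⟨_, rfl⟩
  rw [← hfdef] at hd hle ⊢
  have hf0 : f.leadingCoeff ≠ 0 := by
    rw [leadingCoeff_ne_zero]
    rintro rfl
    simp at hd
  obtain ⟨l, hl⟩ : ∃ l : 𝕜 →ₗ[ℚ] ℚ, l f.leadingCoeff = 1 := by
    obtain ⟨φ, hφ⟩ : ∃ φ : Module.Dual ℚ 𝕜, φ f.leadingCoeff ≠ 0 := by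
      by_contra hcon
      push Not at hcon
      exact hf0 ((Module.forall_dual_apply_eq_zero_iff ℚ _).1 hcon)
    refine ⟨(φ f.leadingCoeff)⁻¹ • φ, ?_⟩
    rw [LinearMap.smul_apply, smul_eq_mul, inv_mul_cancel₀ hφ]
  set F : ℝ[X] := Lp l f with hFdef
  have hFc : ∀ j, F.coeff j = ((l (f.coeff j) : ℚ) : ℝ) := Lp_coeff l f
  have hFd : F.coeff f.natDegree = 1 := by
    rw [hFc]
    have : f.coeff f.natDegree = f.leadingCoeff := rfl
    rw [this, hl, Rat.cast_one]
  have hFnd : F.natDegree = f.natDegree := by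
    refine le_antisymm ?_ (le_natDegree_of_ne_zero (by rw [hFd]; exact one_ne_zero))
    rw [natDegree_le_iff_coeff_eq_zero]
    intro N hN
    rw [hFc, coeff_eq_zero_of_natDegree_lt hN, map_zero, Rat.cast_zero]
  have hFm : F.Monic := by
    rw [Monic, leadingCoeff, hFnd, hFd]
  obtain ⟨t₀, ht₀⟩ := exists_t F hFm
  refine ⟨t₀, fun t ht => ?_⟩
  have hpos := ht₀ t ht
  -- the inner polynomial
  set Q : 𝕜[X] := X ^ 2 + X + C (t : 𝕜) with hQ
  set R : ℝ[X] := X ^ 2 + X + C (t : ℝ) with hR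
  set Q₀ : ℚ[X] := X ^ 2 + X + C (t : ℚ) with hQ₀
  have hQm : Q = Q₀.map (algebraMap ℚ 𝕜) := by
    rw [hQ, hQ₀]; simp
  have hRm : R = Q₀.map (algebraMap ℚ ℝ) := by
    rw [hR, hQ₀]; simp
  have hQnd : Q.natDegree = 2 := by
    rw [hQ]; compute_degree!
  have hcomp : ∀ j, ((l ((f.comp Q).coeff j) : ℚ) : ℝ) = (F.comp R).coeff j := by
    intro j
    rw [comp_coeff, hFnd]
    have h1 : (f.comp Q).coeff j = ∑ i ∈ range (f.natDegree + 1), f.coeff i * (((Q₀ ^ i).coeff j : ℚ) : 𝕜) := by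
      rw [comp, eval₂_eq_sum_range, finsetSum_coeff]
      refine Finset.sum_congr rfl fun i _ => ?_
      rw [coeff_C_mul, hQm, ← Polynomial.map_pow, coeff_map]
      simp
    rw [h1, map_sum, Rat.cast_sum]
    refine Finset.sum_congr rfl fun i _ => ?_
    rw [l_mul, Rat.cast_mul, hFc, hRm, ← Polynomial.map_pow, coeff_map]
    simp
  have hnn : Nn (X ^ 2 + X : ℝ[X]) := (nn_X_pow 2).add nn_X
  have hc1 : 0 < (X ^ 2 + X : ℝ[X]).coeff 1 := by
    rw [coeff_add, coeff_X_pow, coeff_X, if_neg (by norm_num : ¬ (1 : ℕ) = 2), if_pos rfl]; norm_num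
  have hc2 : 0 < (X ^ 2 + X : ℝ[X]).coeff 2 := by
    rw [coeff_add, coeff_X_pow, coeff_X, if_pos rfl, if_neg (by norm_num : ¬ (1 : ℕ) = 2)]; norm_num
  set G : Fin (2 * f.natDegree + 1) → ℝ := fun j => (F.comp R).coeff j with hGdef
  have hG : ∀ j, 0 < G j := by
    intro j
    have hj := j.2
    rw [hGdef]
    simp only
    rw [hR, comp_taylor]
    refine pos_comp (nn_taylor hpos) hnn (i := ((j : ℕ) + 1) / 2) (hpos _ (by omega)) ?_
    have h1 := pos_pow2 hnn hc1 hc2 (2 * (((j : ℕ) + 1) / 2) - j) (j - ((j : ℕ) + 1) / 2)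
    have e1 : 2 * (((j : ℕ) + 1) / 2) - j + (j - ((j : ℕ) + 1) / 2) = ((j : ℕ) + 1) / 2 := by omega
    have e2 : (2 * (((j : ℕ) + 1) / 2) - j) * 1 + (j - ((j : ℕ) + 1) / 2) * 2 = j := by omega
    rwa [e1, e2] at h1
  set g : Fin (2 * f.natDegree + 1) → 𝕜 := fun j => (f.comp Q).coeff j with hg
  have hgG : ∀ j, ((l (g j) : ℚ) : ℝ) = G j := fun j => hcomp j
  refine ⟨?_, ?_⟩
  · intro j hj
    have h1 := hgG j
    have h2 : g j = 0 := hj
    rw [h2, map_zero, Rat.cast_zero] at h1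
    exact (hG j).ne h1
  intro p hp
  have hp2 := hp
  -- membership over the reals
  have hsol : ∀ n : ℕ, n ∈ sysSet p fs (fun (j : Fin (2 * f.natDegree + 1)) (i : ι) =>
      ((fs i).comp Q).coeff j) → SolF F G p n := by
    rintro n ⟨k, hk'⟩
    refine ⟨k, ?_⟩
    have hk : f.eval (n : 𝕜) = ∑ j, g j * (p : 𝕜) ^ (k j) := by
      have h0 := hk' i₀
      beta_reduce at h0
      rw [← hfdef] at h0
      exact h0
    have h1 : ((l (f.eval (n : 𝕜)) : ℚ) : ℝ) = F.eval (n : ℝ) := by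
      rw [eval_eq_sum_range, eval_eq_sum_range, hFnd, map_sum, Rat.cast_sum]
      refine Finset.sum_congr rfl fun i _ => ?_
      rw [l_mul_nat, hFc]
      push_cast
      rfl
    rw [← h1, hk, map_sum, Rat.cast_sum]
    refine Finset.sum_congr rfl fun j _ => ?_
    rw [l_mul_nat, ← hgG]
    push_cast
    rfl
  rintro ⟨FF, hFfin, hFF, hiff⟩
  -- the linked family
  have hfam : ∀ a : ℕ, (p ^ (2 * a) + p ^ a + t) ∈ sysSet p fs
      (fun (j : Fin (2 * f.natDegree + 1)) (i : ι) => ((fs i).comp Q).coeff j) := by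
    intro a
    refine ⟨fun j => (j : ℕ) * a, fun i => ?_⟩
    have h1 : ((p ^ (2 * a) + p ^ a + t : ℕ) : 𝕜) = Q.eval ((p : 𝕜) ^ a) := by
      rw [hQ]
      simp only [eval_add, eval_pow, eval_X, eval_C]
      push_cast
      ring
    rw [h1, ← eval_comp, eval_eq_sum_range' (n := 2 * f.natDegree + 1), Finset.sum_range]
    · refine Finset.sum_congr rfl fun j _ => ?_
      rw [← pow_mul, mul_comm a]
    · have hi := hle i
      rw [natDegree_comp, hQnd]
      omega
  have hcover : ∀ a : ℕ, ∃ A ∈ FF, ((p ^ (2 * a) + p ^ a + t : ℕ) : ℚ) ∈ A := fun a =>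
    (hiff _).1 (hfam a)
  choose φ hφF hφmem using hcover
  obtain ⟨A, hAF, hAinf⟩ : ∃ A ∈ FF, (φ ⁻¹' {A}).Infinite := by
    by_contra hcon
    push Not at hcon
    have h1 : (⋃ A ∈ FF, φ ⁻¹' {A}).Finite := hFfin.biUnion fun A hA => hcon A hA
    have h2 : (⋃ A ∈ FF, φ ⁻¹' {A}) = Set.univ := by
      ext a
      simp only [Set.mem_iUnion, Set.mem_preimage, Set.mem_singleton_iff, Set.mem_univ, iff_true]
      exact ⟨φ a, hφF a, rfl⟩
    rw [h2] at h1
    exact Set.infinite_univ h1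
  have hmemA : ∀ a ∈ φ ⁻¹' {A}, ((p ^ (2 * a) + p ^ a + t : ℕ) : ℚ) ∈ A := by
    intro a ha
    have : φ a = A := ha
    rw [← this]
    exact hφmem a
  have hAS : ∀ x : ℕ, (x : ℚ) ∈ A → SolF F G p x := by
    intro x hx
    exact hsol x ((hiff x).2 ⟨A, hAF, hx⟩)
  rcases hFF A hAF with ⟨u, v, hA⟩ | ⟨m, _, c, k, hA⟩
  · rcases Nat.eq_zero_or_pos v with hv | hv
    · -- a single point
      obtain ⟨a, ha, b, hb, hab⟩ := hAinf.nontrivial
      have h1 := hmemA a ha
      have h2 := hmemA b hb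
      rw [hA] at h1 h2
      obtain ⟨_, h1⟩ := h1
      obtain ⟨_, h2⟩ := h2
      rw [hv] at h1 h2
      simp only [Nat.cast_zero, zero_mul, add_zero] at h1 h2
      have h3 : p ^ (2 * a) + p ^ a + t = p ^ (2 * b) + p ^ b + t := by
        have : ((p ^ (2 * a) + p ^ a + t : ℕ) : ℚ) = ((p ^ (2 * b) + p ^ b + t : ℕ) : ℚ) := by
          rw [h1, h2]
        exact_mod_cast this
      have hmono : ∀ x y : ℕ, x < y → p ^ (2 * x) + p ^ x + t < p ^ (2 * y) + p ^ y + t := by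
        intro x y hxy
        have e1 : p ^ (2 * x) < p ^ (2 * y) := Nat.pow_lt_pow_right (by omega) (by omega)
        have e2 : p ^ x < p ^ y := Nat.pow_lt_pow_right (by omega) hxy
        omega
      rcases lt_or_gt_of_ne hab with h | h
      · exact absurd h3 (hmono _ _ h).ne
      · exact absurd h3 (hmono _ _ h).ne'
    · refine ap_case F (by rw [hFnd]; exact hd) t hpos (by rw [hFnd]) G hG p hp2 u v hv
        fun n => hAS _ ?_
      rw [hA]
      exact ⟨n, by push_cast; ring⟩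
  · refine psum_case F hFm (by rw [hFnd]; exact hd) t hpos (by rw [hFnd]) G hG p hp2 m c k
      (fun x hx => hAS x ?_) _ hAinf fun a ha => ?_
    · rw [hA]
      exact hx
    · have := hmemA a ha
      rw [hA] at this
      exact this

end Pool.Agent.helper67PW.Nonlin
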