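import Pool.Agent.helper67PW.Stm

/-!
# Linear equations in powers of `p` (job of project LX of helper791, MP_a804c6_nt; helper41)
-/

set_option autoImplicit false

open Finset

namespace Pool.Agent.helper67PW.Unit

/-- the solutions -/
def Sol {ι : Type} [Fintype ι] {r : ℕ} (p : ℕ) (v : ι → Fin r → ℤ) (w : Fin r → ℤ) :
    Set (ι → ℕ) :=
  {k | ∀ i, ∑ j, (p : ℤ) ^ (k j) * v j i = w i}

/-- a set of indices above a gap -/
def Good {ι : Type} (G : ℕ) (T : Finset ι) (k : ι → ℕ) : Prop :=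
  (∀ j ∈ T, ∀ i, i ∉ T → k i + G < k j) ∧ ∀ j ∈ T, G < k j

theorem key {ι : Type} [Fintype ι] [DecidableEq ι] {r : ℕ} (p : ℕ) (hp : 2 ≤ p)
    (v : ι → Fin r → ℤ) (w : Fin r → ℤ) (G : ℕ)
    (hG : ∀ i, |w i| + ∑ j, |v j i| < (p : ℤ) ^ G) (k : ι → ℕ) (hk : k ∈ Sol p v w)
    (T : Finset ι) (hT : T.Nonempty) (h : Good G T k) (i : Fin r) :
    ∑ j ∈ T, (p : ℤ) ^ (k j) * v j i = 0 := by
  obtain ⟨j1, hj1, hmin⟩ := T.exists_min_image k hT
  have hp0 : (1 : ℤ) ≤ p := by exact_mod_cast (by omega : 1 ≤ p)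
  have hdiv : (p : ℤ) ^ (k j1) ∣ ∑ j ∈ T, (p : ℤ) ^ (k j) * v j i :=
    Finset.dvd_sum fun j hj => Dvd.dvd.mul_right (pow_dvd_pow _ (hmin j hj)) _
  have hsplit := Finset.sum_add_sum_compl T fun j => (p : ℤ) ^ (k j) * v j i
  rw [hk i] at hsplit
  have hGK : G < k j1 := h.2 j1 hj1
  set Q : ℤ := (p : ℤ) ^ (k j1 - G) with hQ
  have hQ1 : 1 ≤ Q := one_le_pow₀ hp0
  have hQG : Q * (p : ℤ) ^ G = (p : ℤ) ^ (k j1) := by
    rw [hQ, ← pow_add]
    congr 1
    omega
  have h1 : |∑ j ∈ Tᶜ, (p : ℤ) ^ (k j) * v j i| ≤ Q * ∑ j, |v j i| := by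
    calc |∑ j ∈ Tᶜ, (p : ℤ) ^ (k j) * v j i| ≤ ∑ j ∈ Tᶜ, |(p : ℤ) ^ (k j) * v j i| :=
          Finset.abs_sum_le_sum_abs _ _
      _ ≤ ∑ j ∈ Tᶜ, Q * |v j i| := by
          refine Finset.sum_le_sum fun j hj => ?_
          rw [abs_mul, abs_of_nonneg (pow_nonneg (by linarith) _)]
          refine mul_le_mul_of_nonneg_right ?_ (abs_nonneg _)
          have := h.1 j1 hj1 j (Finset.mem_compl.mp hj)
          exact pow_le_pow_right₀ hp0 (by omega)
      _ ≤ ∑ j, Q * |v j i| :=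
          Finset.sum_le_sum_of_subset_of_nonneg (Finset.subset_univ _) fun j _ _ =>
            mul_nonneg (by linarith) (abs_nonneg _)
      _ = Q * ∑ j, |v j i| := by rw [Finset.mul_sum]
  have h2 : |w i| ≤ Q * |w i| := le_mul_of_one_le_left (abs_nonneg _) hQ1
  have h3 : |∑ j ∈ T, (p : ℤ) ^ (k j) * v j i| < (p : ℤ) ^ (k j1) := by
    have h4 : ∑ j ∈ T, (p : ℤ) ^ (k j) * v j i
        = w i - ∑ j ∈ Tᶜ, (p : ℤ) ^ (k j) * v j i := by linarith
    rw [h4, ← hQG]
    calc |w i - ∑ j ∈ Tᶜ, (p : ℤ) ^ (k j) * v j i|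
        ≤ |w i| + |∑ j ∈ Tᶜ, (p : ℤ) ^ (k j) * v j i| := abs_sub _ _
      _ ≤ Q * |w i| + Q * ∑ j, |v j i| := add_le_add h2 h1
      _ = Q * (|w i| + ∑ j, |v j i|) := by ring
      _ < Q * (p : ℤ) ^ G := mul_lt_mul_of_pos_left (hG i) (by linarith)
  exact Int.eq_zero_of_abs_lt_dvd hdiv h3

theorem linked_single {ι : Type} (k : ι → ℕ) : Linked ({k} : Set (ι → ℕ)) := by
  refine ⟨1, fun _ => 0, fun _ => 0, k, fun _ => Nat.zero_le _, ?_⟩
  ext k'
  simp only [Set.mem_singleton_iff, Set.mem_ofPred_eq, zero_mul, add_zero]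
  constructor
  · rintro rfl
    exact ⟨fun _ => 0, fun j => rfl⟩
  · rintro ⟨_, h⟩
    exact funext h

theorem sum_two {ι : Type} [Fintype ι] (P : ι → Prop) [DecidablePred P] [i1 : Fintype {j // P j}]
    [i2 : Fintype {j // ¬ P j}] (f : ι → ℤ) :
    ∑ j : {j // P j}, f j + ∑ j : {j // ¬ P j}, f j = ∑ j, f j := by
  have h := Fintype.sum_subtype_add_sum_subtype P f
  have e1 : i1 = Subtype.fintype P := Subsingleton.elim _ _
  have e2 : i2 = Subtype.fintype fun x => ¬ P x := Subsingleton.elim _ _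
  subst e1
  subst e2
  exact h

/-- the line through `e` -/
def line {ι : Type} (e : ι → ℕ) : Set (ι → ℕ) := {k | ∃ n : Fin 1 → ℕ, ∀ j, k j = e j + 1 * n 0}

theorem linked_line {ι : Type} (e : ι → ℕ) : Linked (line e) :=
  ⟨1, fun _ => 0, fun _ => 1, e, fun _ => le_rfl, rfl⟩

theorem aux (hpig : S_PIG) (hprod : S_PROD) (p : ℕ) (hp : 2 ≤ p) (r : ℕ) :
    ∀ (n : ℕ) (ι : Type) [Fintype ι] [DecidableEq ι], Fintype.card ι = n →
      ∀ (v : ι → Fin r → ℤ) (w : Fin r → ℤ),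
      ∃ F : Set (Set (ι → ℕ)), F.Finite ∧ (∀ K ∈ F, Linked K) ∧ Sol p v w = ⋃₀ F := by
  intro n
  induction n using Nat.strong_induction_on with
  | _ n ih =>
  intro ι _ _ hcard v w
  -- the gap
  obtain ⟨G, hG⟩ : ∃ G : ℕ, ∀ i, |w i| + ∑ j, |v j i| < (p : ℤ) ^ G := by
    refine ⟨∑ i, (|w i| + ∑ j, |v j i|).toNat, fun i => ?_⟩
    have h1 : (|w i| + ∑ j, |v j i|).toNat ≤ ∑ i, (|w i| + ∑ j, |v j i|).toNat :=
      Finset.single_le_sum (f := fun i => (|w i| + ∑ j, |v j i|).toNat)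
        (fun _ _ => Nat.zero_le _) (Finset.mem_univ i)
    have h2 : (|w i| + ∑ j, |v j i|).toNat < p ^ (∑ i, (|w i| + ∑ j, |v j i|).toNat) :=
      lt_of_le_of_lt h1 (Nat.lt_pow_self (by omega))
    have h3 : ((|w i| + ∑ j, |v j i|).toNat : ℤ) = |w i| + ∑ j, |v j i| :=
      Int.toNat_of_nonneg (add_nonneg (abs_nonneg _) (Finset.sum_nonneg fun _ _ => abs_nonneg _))
    rw [← h3]
    exact_mod_cast h2
  have hp0 : (p : ℤ) ≠ 0 := by exact_mod_cast (by omega : p ≠ 0)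
  -- families of type (a)
  have hA : ∀ T : Finset ι, ∃ F : Set (Set (ι → ℕ)), F.Finite ∧ (∀ K ∈ F, Linked K) ∧
      (∀ K ∈ F, K ⊆ Sol p v w) ∧ (T.Nonempty → T ≠ Finset.univ →
        ∀ k ∈ Sol p v w, Good G T k → ∃ K ∈ F, k ∈ K) := by
    intro T
    by_cases hT : T.Nonempty ∧ T ≠ Finset.univ
    swap
    · exact ⟨∅, Set.finite_empty, fun _ h => h.elim, fun _ h => h.elim,
        fun h1 h2 => absurd ⟨h1, h2⟩ hT⟩
    obtain ⟨hT1, hT2⟩ := hT
    obtain ⟨x1, hx1⟩ := hT1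
    obtain ⟨x2, hx2⟩ : ∃ x, x ∉ T := by
      by_contra hcon
      push Not at hcon
      exact hT2 (Finset.eq_univ_iff_forall.mpr hcon)
    let P : ι → Prop := fun j => j ∈ T
    have hc1 : Fintype.card {j // P j} < n := by
      rw [← hcard]
      exact Fintype.card_subtype_lt (x := x2) hx2
    have hc2 : Fintype.card {j // ¬ P j} < n := by
      rw [← hcard]
      exact Fintype.card_subtype_lt (x := x1) (not_not.mpr hx1)
    obtain ⟨F1, hF1a, hF1b, hF1c⟩ := ih _ hc1 {j // P j} rfl (fun j => v j) (fun _ => 0)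
    obtain ⟨F2, hF2a, hF2b, hF2c⟩ := ih _ hc2 {j // ¬ P j} rfl (fun j => v j) w
    refine ⟨Set.image2 (fun K1 K2 => {k : ι → ℕ | (fun j : {j // P j} => k j) ∈ K1 ∧
      (fun j : {j // ¬ P j} => k j) ∈ K2}) F1 F2, hF1a.image2 _ hF2a, ?_, ?_, ?_⟩
    · rintro K ⟨K1, hK1, K2, hK2, rfl⟩
      exact hprod ι P K1 K2 (hF1b K1 hK1) (hF2b K2 hK2)
    · rintro K ⟨K1, hK1, K2, hK2, rfl⟩ k ⟨hk1, hk2⟩ i
      have h1 : (fun j : {j // P j} => k j) ∈ Sol p (fun j : {j // P j} => v j) (fun _ => 0) := by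
        rw [hF1c]
        exact ⟨K1, hK1, hk1⟩
      have h2 : (fun j : {j // ¬ P j} => k j) ∈ Sol p (fun j : {j // ¬ P j} => v j) w := by
        rw [hF2c]
        exact ⟨K2, hK2, hk2⟩
      have h3 := h1 i
      have h4 := h2 i
      have h5 := sum_two P fun j => (p : ℤ) ^ (k j) * v j i
      rw [← h5]
      exact (congrArg₂ (· + ·) h3 h4).trans (zero_add _)
    · intro _ _ k hk hgood
      have h0 := key p hp v w G hG k hk T ⟨x1, hx1⟩ hgood
      have h1 : (fun j : {j // P j} => k j) ∈ Sol p (fun j : {j // P j} => v j) (fun _ => 0) := by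
        intro i
        rw [← h0 i]
        exact (Finset.sum_subtype T (fun _ => Iff.rfl) fun j => (p : ℤ) ^ (k j) * v j i).symm
      have h2 : (fun j : {j // ¬ P j} => k j) ∈ Sol p (fun j : {j // ¬ P j} => v j) w := by
        intro i
        have h5 := sum_two P fun j => (p : ℤ) ^ (k j) * v j i
        have h6 := h1 i
        have h7 := hk i
        rw [← h5] at h7
        have h8 := (congrArg₂ (· + ·) h6 (Eq.refl
          (∑ j : {j // ¬ P j}, (p : ℤ) ^ (k j) * v j i))).symm.trans h7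
        exact (zero_add _).symm.trans h8
      rw [hF1c] at h1
      rw [hF2c] at h2
      obtain ⟨K1, hK1, hk1⟩ := h1
      obtain ⟨K2, hK2, hk2⟩ := h2
      exact ⟨_, ⟨K1, hK1, K2, hK2, rfl⟩, hk1, hk2⟩
  choose FA hA1 hA2 hA3 hA4 using hA
  -- the box
  set M : ℕ := Fintype.card ι * (G + 1) with hM
  set B : Set (ι → ℕ) := {e | ∀ j, e j < M} with hB
  have hBfin : B.Finite := by
    exact Set.Finite.pi' (t := fun _ => Set.Iio M) fun _ => Set.finite_Iio M
  refine ⟨(⋃ T, FA T) ∪ (line '' {e | e ∈ B ∧ e ∈ Sol p v w ∧ ∀ i, w i = 0}) ∪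
    ((fun k => ({k} : Set (ι → ℕ))) '' {k | k ∈ B ∧ k ∈ Sol p v w}), ?_, ?_, ?_⟩
  · refine ((Set.finite_iUnion hA1).union ?_).union ?_
    · exact (hBfin.subset fun e he => he.1).image _
    · exact (hBfin.subset fun e he => he.1).image _
  · rintro K ((hK | ⟨e, -, rfl⟩) | ⟨k, -, rfl⟩)
    · obtain ⟨T, hT⟩ := Set.mem_iUnion.mp hK
      exact hA2 T K hT
    · exact linked_line e
    · exact linked_single k
  · ext k
    constructor
    · intro hk
      by_cases h1 : ∃ T : Finset ι, T.Nonempty ∧ T ≠ Finset.univ ∧ Good G T k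
      · obtain ⟨T, hT1, hT2, hT3⟩ := h1
        obtain ⟨K, hK, hkK⟩ := hA4 T hT1 hT2 k hk hT3
        exact ⟨K, Or.inl (Or.inl (Set.mem_iUnion.mpr ⟨T, hK⟩)), hkK⟩
      by_cases h2 : ∃ j0, M ≤ k j0
      · obtain ⟨j0, hj0⟩ := h2
        obtain ⟨T, hjT, hT1, hT2⟩ := hpig ι G k j0 hj0
        have hTu : T = Finset.univ := by
          by_contra hne
          exact h1 ⟨T, ⟨j0, hjT⟩, hne, hT1, hT2⟩
        have h3 := key p hp v w G hG k hk T ⟨j0, hjT⟩ ⟨hT1, hT2⟩
        rw [hTu] at h3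
        have hw : ∀ i, w i = 0 := fun i => by rw [← hk i, h3 i]
        obtain ⟨j1, -, hmin⟩ := Finset.exists_min_image Finset.univ k ⟨j0, Finset.mem_univ _⟩
        have hke : ∀ j, k j = (k j - k j1) + k j1 := fun j => by
          have := hmin j (Finset.mem_univ j)
          omega
        refine ⟨line fun j => k j - k j1, Or.inl (Or.inr ⟨_, ⟨?_, ?_, hw⟩, rfl⟩), ?_⟩
        · intro j2
          by_contra hcon
          push Not at hcon
          obtain ⟨T', hjT', hT1', hT2'⟩ := hpig ι G (fun j => k j - k j1) j2 hcon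
          refine h1 ⟨T', ⟨j2, hjT'⟩, ?_, ?_, ?_⟩
          · intro hu
            have := hT2' j1 (hu ▸ Finset.mem_univ j1)
            simp at this
          · intro j hj i hi
            have h4 : k i - k j1 + G < k j - k j1 := hT1' j hj i hi
            have h5 := hke j
            have h6 := hke i
            omega
          · intro j hj
            have h4 : G < k j - k j1 := hT2' j hj
            omega
        · intro i
          rw [hw i]
          have h4 := h3 i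
          have h5 : ∑ j, (p : ℤ) ^ (k j) * v j i
              = (p : ℤ) ^ (k j1) * ∑ j, (p : ℤ) ^ (k j - k j1) * v j i := by
            rw [Finset.mul_sum]
            refine Finset.sum_congr rfl fun j _ => ?_
            rw [← mul_assoc, ← pow_add, add_comm (k j1), ← hke j]
          rw [h5] at h4
          exact (mul_eq_zero.mp h4).resolve_left (pow_ne_zero _ hp0)
        · exact ⟨fun _ => k j1, fun j => by rw [one_mul]; exact hke j⟩
      · push Not at h2
        exact ⟨{k}, Or.inr ⟨k, ⟨h2, hk⟩, rfl⟩, rfl⟩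
    · rintro ⟨K, (hK | ⟨e, ⟨-, he2, he3⟩, rfl⟩) | ⟨k', ⟨-, hk'⟩, rfl⟩, hkK⟩
      · obtain ⟨T, hT⟩ := Set.mem_iUnion.mp hK
        exact hA3 T K hT hkK
      · obtain ⟨nn, hn⟩ := hkK
        intro i
        have h1 := he2 i
        have h2 : ∑ j, (p : ℤ) ^ (k j) * v j i
            = (p : ℤ) ^ (nn 0) * ∑ j, (p : ℤ) ^ (e j) * v j i := by
          rw [Finset.mul_sum]
          refine Finset.sum_congr rfl fun j _ => ?_
          rw [hn j, one_mul, pow_add]
          ring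
        rw [h2, h1, he3 i, mul_zero]
      · rw [Set.mem_singleton_iff] at hkK
        rw [hkK]
        exact hk'

theorem main : S_PIG → S_PROD → S_UNIT := by
  intro hpig hprod p hp r ι _ _ v w
  exact aux hpig hprod p hp r _ ι rfl v w

end Pool.Agent.helper67PW.Unit
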